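import Pool.Agent.H543R3.PC.Final

/-!
# The Borel complexity of: some `NP`-complete set has a `p`-optimal proof system
-/

set_option autoImplicit false

namespace Pool.Agent.Results.MP_c56612_lc.BorelComplexity

open Pool.Agent.H628R3.RO

/-- The set of oracles relative to which some `NP`-complete set has a `p`-optimal proof system is
`Σ⁰₄`-complete. -/
theorem result : H556R2.Sigma04Complete {A : Oracle | ∃ L : Set (List Bool),
    IsNP A L ∧ NPHardRel A L ∧ ∃ P, IsPOptimal A L P} :=
  Pool.Agent.H543R3.PC.poptS_complete

end Pool.Agent.Results.MP_c56612_lc.BorelComplexity
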